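import Pool.Agent.Helper56.NE.ClassGrid
import Pool.Agent.Helper90.TS.NEU
import Pool.Agent.Helper95.TS.MainLow

/-!
# The class block of a configuration, scale `96000`

`cuC c i m x y`: the cell `(i; m)` with the component `X` capping `x` and `Y` capping `y`. In the class block of
the class `i` with the columns `m0, m1, m2` the cell `k` has `X` = component capping `m (k + 2)` (it bounds the
width of the cell `k + 1`) and `Y` = component capping `m (k + 1)` (it bounds the width of the cell `k + 2`).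
-/

set_option autoImplicit false

namespace Pool.Agent.Helper56.NE

open Pool.Agent.Helper62.NE Pool.Agent.Helper95.TS Pool.Agent.Helper90.TS Pool.Agent.Helper84.TS

/-- the price tables of a cell -/
structure Tab where
  w : ℤ → ℝ
  X : ℤ → ℝ
  Y : ℤ → ℝ
  D : ℤ → ℝ

/-- the price of a real cell: linear between the integers -/
noncomputable def Tab.real (T : Tab) (c : RC) : ℝ :=
  interp T.w c.w + interp T.X c.X + interp T.Y c.Y + interp T.D c.D

/-- the price of a grid cell -/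
def Tab.grid (T : Tab) (g : GC) : ℝ := T.w g.w + T.X g.X + T.Y g.Y + T.D g.D

theorem Aff.mono {c : RC} {F : ℝ} {F' : GC → ℝ} {K K' : ℝ} (h : Aff c F F' K) (hK : K ≤ K') :
    Aff c F F' K' := by
  obtain ⟨a, b, d, h⟩ := h
  exact ⟨a, b, d, fun g hg => by have := h g hg; linarith⟩

theorem Aff.smul {c : RC} {F : ℝ} {F' : GC → ℝ} {K : ℝ} (h : Aff c F F' K) {s : ℝ} (hs : 0 ≤ s) :
    Aff c (s * F) (fun g => s * F' g) (s * K) := by
  obtain ⟨a, b, d, h⟩ := h
  refine ⟨s * a, s * b, s * d, fun g hg => ?_⟩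
  have := mul_le_mul_of_nonneg_left (h g hg) hs
  linarith

theorem Tab.aff (T : Tab) (c : RC) : Aff c (T.real c) T.grid 0 := by
  have h := (((Aff.tab_w T.w c).add (Aff.tab_X T.X c)).add (Aff.tab_Y T.Y c)).add (Aff.tab_D T.D c)
  obtain ⟨a, b, d, h⟩ := h
  refine ⟨a, b, d, fun g hg => ?_⟩
  have := h g hg
  unfold Tab.real Tab.grid
  linarith

theorem Tab.aff4 (T : Tab) (c : RC) : Aff c (T.real c / 4) (fun g => T.grid g / 4) 0 := by
  obtain ⟨a, b, d, h⟩ := (T.aff c).smul (s := 1 / 4) (by norm_num)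
  refine ⟨a, b, d, fun g hg => ?_⟩
  have := h g hg
  linarith

/-- **The class block**, scale `96000`. -/
theorem class96 {c : Fin 3 → RC} {f : Fin 3 → ℝ} (h : ∀ k, PrC (f k) (c k) ∨ AbC (f k) (c k))
    (r0 : PairR true (c 0) (c 1) ∨ PairR false (c 0) (c 1))
    (r1 : PairR true (c 1) (c 2) ∨ PairR false (c 1) (c 2))
    (r2 : PairR true (c 2) (c 0) ∨ PairR false (c 2) (c 0)) (T : Fin 3 → Tab) {M : ℝ}
    (hM : ∀ (o0 o1 o2 : Bool) (g : Fin 3 → GC), (∀ k, NearC (c k) (g k)) → (∀ k, (g k).Sum) →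
      Tri o0 o1 o2 (g 0) (g 1) (g 2) → ∑ k, (4 * ((g k).vol : ℝ) + (T k).grid (g k)) ≤ M) :
    ∑ k, (96000 * f k + (T k).real (c k)) ≤ M + 264 := by
  have k := class_block h r0 r1 r2 (fun k => (T k).aff4 (c k)) (M := M / 4)
    (fun o0 o1 o2 g h1 h2 h3 => by
      have := hM o0 o1 o2 g h1 h2 h3
      rw [Fin.sum_univ_three] at this ⊢
      linarith)
  rw [Fin.sum_univ_three, Fin.sum_univ_three] at k
  rw [Fin.sum_univ_three]
  linarith

/-- the class block without pair relations, scale `96000` -/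
theorem class96_free {c : Fin 3 → RC} {f : Fin 3 → ℝ} (h : ∀ k, PrC (f k) (c k) ∨ AbC (f k) (c k))
    (T : Fin 3 → Tab) (β : ℝ) {M : Fin 3 → ℝ} (hM : ∀ k g, NearC (c k) g → g.Sum →
      4 * (g.vol : ℝ) + (T k).grid g - β * (max g.w 0 : ℤ) ≤ M k) :
    ∑ k, (96000 * f k + (T k).real (c k) - β * max (c k).w 0) ≤ ∑ k, M k + 264 := by
  have k := class_free h (fun k => (T k).aff4 (c k)) (β / 4) (M := fun k => M k / 4)
    (fun k g h1 h2 => by
      have := hM k g h1 h2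
      linarith)
  rw [Fin.sum_univ_three, Fin.sum_univ_three, Fin.sum_univ_three] at k
  rw [Fin.sum_univ_three, Fin.sum_univ_three]
  linarith

/-- the cell `(i; m)` of a configuration, `X` caps `x`, `Y` caps `y` -/
def cuC (c : Cu) (i m x y : Fin 4) : RC := ⟨c.w i m, c.X i m x, c.X i m y, c.D i m⟩

theorem cuC_ok {c : Cu} (h : c.Ok) {i m x y : Fin 4} (hi : i = 0 ∨ i = 1)
    (hn : [i, m, x, y].Nodup) : PrC (c.f i m) (cuC c i m x y) ∨ AbC (c.f i m) (cuC c i m x y) := by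
  rcases h.cell i m x y hi hn with k | k
  · left
    have e := k.val24
    refine ⟨k.w0.le, k.w1, k.X0.le, k.Y0.le, ?_, ?_⟩
    · show c.X i m x + c.X i m y + c.D i m = 20 + c.w i m
      linarith [k.sum]
    · show 24000 * c.f i m = 3 * c.w i m * c.X i m x * c.X i m y - c.w i m ^ 3 +
        (max (c.w i m - c.X i m x) 0) ^ 3 + (max (c.w i m - c.X i m y) 0) ^ 3
      rw [e, Pool.Agent.Helper95.TS.cellG,
        show 20 + c.w i m - (c.X i m x + c.D i m) = c.X i m y by linarith [k.sum],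
        show c.X i m x + c.D i m - 20 = c.w i m - c.X i m y by linarith [k.sum]]
  · right
    exact ⟨k.w, k.X, k.Y, k.D, k.val⟩

/-- the cells of the class block -/
def cuT (c : Cu) (i m0 m1 m2 : Fin 4) : Fin 3 → RC :=
  ![cuC c i m0 m2 m1, cuC c i m1 m0 m2, cuC c i m2 m1 m0]

/-- their volumes -/
def cuF (c : Cu) (i m0 m1 m2 : Fin 4) : Fin 3 → ℝ := ![c.f i m0, c.f i m1, c.f i m2]

section

variable {c : Cu} {i m0 m1 m2 : Fin 4}

theorem cuT_ok (h : c.Ok) (hi : i = 0 ∨ i = 1) (hn : [i, m0, m1, m2].Nodup) (k : Fin 3) :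
    PrC (cuF c i m0 m1 m2 k) (cuT c i m0 m1 m2 k) ∨ AbC (cuF c i m0 m1 m2 k) (cuT c i m0 m1 m2 k) := by
  fin_cases k
  · exact cuC_ok h hi (by clear * - hn; revert hn; revert i m0 m1 m2; decide)
  · exact cuC_ok h hi (by clear * - hn; revert hn; revert i m0 m1 m2; decide)
  · exact cuC_ok h hi (by clear * - hn; revert hn; revert i m0 m1 m2; decide)

/-- **The class block of a configuration**: the class `i` with the columns `m0, m1, m2`, no main cell. -/
theorem cu_class (h : c.Ok) (hi : i = 0 ∨ i = 1) (hn : [i, m0, m1, m2].Nodup) (T0 T1 T2 : Tab)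
    {M : ℝ} (hM : ∀ (o0 o1 o2 : Bool) (g0 g1 g2 : GC), NearC (cuC c i m0 m2 m1) g0 →
      NearC (cuC c i m1 m0 m2) g1 → NearC (cuC c i m2 m1 m0) g2 → g0.Sum → g1.Sum → g2.Sum →
      Tri o0 o1 o2 g0 g1 g2 →
      (4 * (g0.vol : ℝ) + T0.grid g0) + (4 * (g1.vol : ℝ) + T1.grid g1)
        + (4 * (g2.vol : ℝ) + T2.grid g2) ≤ M) :
    96000 * (c.f i m0 + c.f i m1 + c.f i m2) + T0.real (cuC c i m0 m2 m1)
      + T1.real (cuC c i m1 m0 m2) + T2.real (cuC c i m2 m1 m0) ≤ M + 264 := by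
  have s : ∀ a b r, [i, a, b, r].Nodup → c.X i a r + c.w i b ≤ 20 ∨ c.X i b r + c.w i a ≤ 20 := by
    intro a b r hab
    rcases h.sp i a b r hi hab with k | k
    · left; linarith
    · right; linarith
  have k := class96 (c := cuT c i m0 m1 m2) (f := cuF c i m0 m1 m2) (cuT_ok h hi hn)
    (s m0 m1 m2 hn)
    (s m1 m2 m0 (by clear * - hn; revert hn; revert i m0 m1 m2; decide))
    (s m2 m0 m1 (by clear * - hn; revert hn; revert i m0 m1 m2; decide)) ![T0, T1, T2] (M := M)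
    (fun o0 o1 o2 g h1 h2 h3 => by
      have := hM o0 o1 o2 (g 0) (g 1) (g 2) (h1 0) (h1 1) (h1 2) (h2 0) (h2 1) (h2 2) h3
      rw [Fin.sum_univ_three]
      exact this)
  rw [Fin.sum_univ_three] at k
  have k' : (96000 * c.f i m0 + T0.real (cuC c i m0 m2 m1)) +
    (96000 * c.f i m1 + T1.real (cuC c i m1 m0 m2)) +
    (96000 * c.f i m2 + T2.real (cuC c i m2 m1 m0)) ≤ M + 264 := k
  linarith

/-- **The main alternative of a configuration**: `4800 β` per unit of width. -/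
theorem cu_main (h : c.Ok) (hi : i = 0 ∨ i = 1) (hn : [i, m0, m1, m2].Nodup) (T0 T1 T2 : Tab)
    {α β M0 M1 M2 : ℝ} (hp : MajPair α β) (hmf : c.mf i ≠ 0)
    (hM0 : ∀ g, NearC (cuC c i m0 m2 m1) g → g.Sum →
      4 * (g.vol : ℝ) + T0.grid g - 4800 * β * (max g.w 0 : ℤ) ≤ M0)
    (hM1 : ∀ g, NearC (cuC c i m1 m0 m2) g → g.Sum →
      4 * (g.vol : ℝ) + T1.grid g - 4800 * β * (max g.w 0 : ℤ) ≤ M1)
    (hM2 : ∀ g, NearC (cuC c i m2 m1 m0) g → g.Sum →
      4 * (g.vol : ℝ) + T2.grid g - 4800 * β * (max g.w 0 : ℤ) ≤ M2) :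
    96000 * (c.mf i + c.f i m0 + c.f i m1 + c.f i m2) + T0.real (cuC c i m0 m2 m1)
      + T1.real (cuC c i m1 m0 m2) + T2.real (cuC c i m2 m1 m0) ≤
      96000 * α + M0 + M1 + M2 + 264 := by
  have k := class96_free (c := cuT c i m0 m1 m2) (f := cuF c i m0 m1 m2) (cuT_ok h hi hn)
    ![T0, T1, T2] (4800 * β) (M := ![M0, M1, M2]) (fun k g => by
      fin_cases k
      · exact hM0 g
      · exact hM1 g
      · exact hM2 g)
  rw [Fin.sum_univ_three, Fin.sum_univ_three] at k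
  have k' : (96000 * c.f i m0 + T0.real (cuC c i m0 m2 m1) - 4800 * β * max (c.w i m0) 0) +
    (96000 * c.f i m1 + T1.real (cuC c i m1 m0 m2) - 4800 * β * max (c.w i m1) 0) +
    (96000 * c.f i m2 + T2.real (cuC c i m2 m1 m0) - 4800 * β * max (c.w i m2) 0) ≤
    M0 + M1 + M2 + 264 := k
  rcases h.main i m0 m1 m2 hi hn with e | ⟨δ, p, q, s, d1, d2, ⟨p1, p2⟩, ⟨q1, q2⟩, ⟨s1, s2⟩, hs, hf, a0, a1, a2⟩
  · exact absurd e hmf
  · have tt : ∀ {w a : ℝ}, (w = -20 ∨ w ≤ 20 * (δ - a)) → max w 0 / 20 ≤ max (δ - a) 0 := by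
      intro w a hw
      have h0 := le_max_right (δ - a) 0
      have h1 := le_max_left (δ - a) 0
      rcases le_total w 0 with w0 | w0
      · rw [max_eq_right w0]
        linarith
      · rw [max_eq_left w0]
        rcases hw with rfl | hw
        · norm_num at w0
        · linarith
    have m := (main_low hp d1 d2.le p1 p2 q1 q2 s1 s2 hs (tt a0) (tt a1) (tt a2)).1
    rw [← hf] at m
    have m' : 96000 * c.mf i ≤ 96000 * α - 4800 * β * (max (c.w i m0) 0 + max (c.w i m1) 0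
        + max (c.w i m2) 0) := by
      have := mul_le_mul_of_nonneg_left m (show (0 : ℝ) ≤ 96000 by norm_num)
      refine this.trans (le_of_eq ?_)
      ring
    linarith

end

/-- the box of a real cell goes to the grid cell -/
theorem box_near {x : ℝ} {m lo hi : ℤ} (h : Near x m) (h1 : (lo : ℝ) ≤ x) (h2 : x ≤ hi) :
    lo ≤ m ∧ m ≤ hi := ⟨h.ge_of_ge h1, h.le_of_le h2⟩

/-- an absent cell stays -/
theorem AbC.near {f : ℝ} {c : RC} (h : AbC f c) {g : GC} (hg : NearC c g) :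
    g = ⟨-20, 0, 0, 40⟩ := by
  have e : ∀ {x : ℝ} {m n : ℤ}, Near x m → x = n → m = n := by
    intro x m n hm hx
    have a1 : m ≤ n := hm.le_of_le hx.le
    have a2 : n ≤ m := hm.ge_of_ge hx.ge
    omega
  have e1 : g.w = -20 := e hg.w (by rw [h.w]; norm_num)
  have e2 : g.X = 0 := e hg.X (by rw [h.X]; norm_num)
  have e3 : g.Y = 0 := e hg.Y (by rw [h.Y]; norm_num)
  have e4 : g.D = 40 := e hg.D (by rw [h.D]; norm_num)
  cases g
  simp only at e1 e2 e3 e4
  subst e1 e2 e3 e4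
  rfl

/-- the grid cell of a present cell -/
theorem PrC.near {f : ℝ} {c : RC} (h : PrC f c) {g : GC} (hg : NearC c g) (hs : g.Sum) :
    0 ≤ g.w ∧ g.w ≤ 20 ∧ 0 ≤ g.X ∧ 0 ≤ g.Y ∧ g.X + g.Y + g.D = 20 + g.w := by
  obtain ⟨w0, w1⟩ := box_near (lo := 0) (hi := 20) hg.w (by push_cast; exact h.w0)
    (by push_cast; exact h.w1)
  refine ⟨w0, w1, hg.X.ge_of_ge (c := 0) (by push_cast; exact h.X0),
    hg.Y.ge_of_ge (c := 0) (by push_cast; exact h.Y0), ?_⟩
  rcases hs with hs | hs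
  · exact hs
  · rw [hs] at w0
    norm_num at w0

/-- a reversed table -/
theorem interp_rev (φ : ℤ → ℝ) (a : ℤ) (x : ℝ) :
    interp φ (a - x) = interp (fun n => φ (a - n)) x := by
  by_cases hx : (⌊x⌋ : ℝ) = x
  · have e : ⌊(a : ℝ) - x⌋ = a - ⌊x⌋ := by
      rw [← hx, ← Int.cast_sub, Int.floor_intCast, hx]
    unfold interp
    rw [e]
    push_cast
    rw [hx]
    ring
  · have h0 := Int.floor_le x
    have h1 := Int.lt_floor_add_one x
    have h2 : (⌊x⌋ : ℝ) < x := lt_of_le_of_ne h0 hx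
    have e : ⌊(a : ℝ) - x⌋ = a - ⌊x⌋ - 1 := by
      rw [Int.floor_eq_iff]
      push_cast
      constructor <;> linarith
    unfold interp
    beta_reduce
    rw [e, show a - ⌊x⌋ - 1 + 1 = a - ⌊x⌋ by ring, show a - (⌊x⌋ + 1) = a - ⌊x⌋ - 1 by ring]
    push_cast
    ring

end Pool.Agent.Helper56.NE
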