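import Pool.Agent.Helper62.NE.CellRound
import Pool.Agent.Helper95.TS.RowRound

/-!
# Rounding the three far cells of a weak class with one threshold

Units `1 / 20`. A cell has a width `w`, two components `X`, `Y` and a depth `D`, `X + Y = 20 + w - D`; an absent
cell is `(-20, 0, 0, 40)` up to the sum. Every cell is rounded by `⌊z + t⌋` or by `-⌊-z + t⌋` (sign `b`), applied
to `w`, one component (the potential, `p = true` for `X`) and the component plus `D`. A pair relation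
`X + w' ≤ 20` between two cells survives if `X` is the potential and the signs are opposite; otherwise
`X + w' ≤ 21`.
-/

set_option autoImplicit false

namespace Pool.Agent.Helper56.NE

open Pool.Agent.Helper62.NE Pool.Agent.Helper95.TS

/-! ### Rounding of a number -/

/-- rounding, `b = true`: `⌊z + t⌋`, `b = false`: `-⌊-z + t⌋` -/
noncomputable def rI (b : Bool) (t z : ℝ) : ℤ := bif b then ⌊z + t⌋ else -⌊-z + t⌋

theorem rI_near {t : ℝ} (t0 : 0 ≤ t) (t1 : t < 1) (b : Bool) (z : ℝ) : Near z (rI b t z) := by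
  cases b
  · exact near_neg_floor t0 t1 z
  · exact near_floor_t t0 t1 z

theorem near_neg {x : ℝ} {m : ℤ} (h : Near x m) : Near (-x) (-m) := by
  refine ⟨?_, ?_⟩
  · have := h.2
    rw [Int.floor_neg]
    omega
  · have := h.1
    rw [Int.ceil_neg]
    omega

theorem rI_sub_near (b : Bool) (t x y : ℝ) : Near (y - x) (rI b t y - rI b t x) := by
  cases b
  · have h := near_neg (near_floor_sub (-x + t) (-(y - x)))
    rw [neg_neg, show -x + t + -(y - x) = -y + t by ring] at h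
    unfold rI
    simp only [cond_false]
    convert h using 1
    ring
  · have h := near_floor_sub (x + t) (y - x)
    rw [show x + t + (y - x) = y + t by ring] at h
    exact h

theorem rI_add_int (b : Bool) (t z : ℝ) (n : ℤ) : rI b t (z + n) = rI b t z + n := by
  cases b
  · unfold rI
    simp only [cond_false]
    rw [show -(z + (n : ℝ)) + t = (-z + t) - (n : ℝ) by ring, Int.floor_sub_intCast]
    ring
  · unfold rI
    simp only [cond_true]
    rw [show z + (n : ℝ) + t = (z + t) + (n : ℝ) by ring, Int.floor_add_intCast]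

theorem rI_int {t : ℝ} (t0 : 0 ≤ t) (t1 : t < 1) (b : Bool) (n : ℤ) : rI b t n = n := by
  have h := rI_near t0 t1 b (n : ℝ)
  have h1 := h.1
  have h2 := h.2
  rw [Int.floor_intCast] at h1
  rw [Int.ceil_intCast] at h2
  omega

theorem rI_mono (b : Bool) (t : ℝ) {x y : ℝ} (h : x ≤ y) : rI b t x ≤ rI b t y := by
  cases b
  · unfold rI
    simp only [cond_false]
    have : ⌊-y + t⌋ ≤ ⌊-x + t⌋ := Int.floor_le_floor (by linarith)
    omega
  · exact Int.floor_le_floor (by linarith)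

theorem rI_not (b : Bool) (t z : ℝ) : rI (!b) t z = -rI b t (-z) := by
  cases b
  · unfold rI
    simp only [Bool.not_false, cond_true, cond_false]
    rw [neg_neg, neg_neg]
  · rfl

/-- a pair with opposite signs -/
theorem rI_pair {b b' : Bool} (hb : b' = !b) (t : ℝ) {x w : ℝ} (h : x + w ≤ 20) :
    rI b t x + rI b' t w ≤ 20 := by
  subst hb
  rw [rI_not]
  have h1 : rI b t x ≤ rI b t (-w + (20 : ℤ)) := rI_mono b t (by push_cast; linarith)
  rw [rI_add_int] at h1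
  omega

/-- a pair with any roundings -/
theorem near_pair {x w : ℝ} {m n : ℤ} (hm : Near x m) (hn : Near w n) (h : x + w ≤ 20) :
    m + n ≤ 21 := by
  have h1 := hm.2
  have h2 := hn.2
  have h3 : (⌈x⌉ : ℝ) < x + 1 := Int.ceil_lt_add_one x
  have h4 : (⌈w⌉ : ℝ) < w + 1 := Int.ceil_lt_add_one w
  have h5 : ((⌈x⌉ + ⌈w⌉ : ℤ) : ℝ) < 22 := by
    push_cast
    linarith
  have h6 : ⌈x⌉ + ⌈w⌉ < 22 := by exact_mod_cast h5
  omega

/-! ### Rounding of a cell -/

/-- a real cell -/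
structure RC where
  w : ℝ
  X : ℝ
  Y : ℝ
  D : ℝ

/-- a grid cell -/
structure GC where
  w : ℤ
  X : ℤ
  Y : ℤ
  D : ℤ

/-- the grid cell is a neighbour of the real one -/
structure NearC (c : RC) (g : GC) : Prop where
  w : Near c.w g.w
  X : Near c.X g.X
  Y : Near c.Y g.Y
  D : Near c.D g.D
  Xw : Near (c.X - c.w) (g.X - g.w)
  Yw : Near (c.Y - c.w) (g.Y - g.w)
  dsp : (g.D : ℝ) - c.D = (g.w - c.w) - (g.X - c.X) - (g.Y - c.Y)

/-- the volume of a grid cell, scale `24000`; an absent cell has a negative width -/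
def GC.vol (g : GC) : ℤ :=
  if g.w < 0 then 0 else
    3 * g.w * g.X * g.Y - g.w ^ 3 + (max (g.w - g.X) 0) ^ 3 + (max (g.w - g.Y) 0) ^ 3

/-- a present cell -/
structure PrC (f : ℝ) (c : RC) : Prop where
  w0 : 0 ≤ c.w
  w1 : c.w ≤ 20
  X0 : 0 ≤ c.X
  Y0 : 0 ≤ c.Y
  sum : c.X + c.Y + c.D = 20 + c.w
  val : 24000 * f = 3 * c.w * c.X * c.Y - c.w ^ 3 + (max (c.w - c.X) 0) ^ 3 + (max (c.w - c.Y) 0) ^ 3

/-- an absent cell -/
structure AbC (f : ℝ) (c : RC) : Prop where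
  w : c.w = -20
  X : c.X = 0
  Y : c.Y = 0
  D : c.D = 40
  val : f = 0

theorem AbC.swap {f : ℝ} {c : RC} (h : AbC f c) : AbC f ⟨c.w, c.Y, c.X, c.D⟩ :=
  ⟨h.w, h.Y, h.X, h.D, h.val⟩

theorem PrC.swap {f : ℝ} {c : RC} (h : PrC f c) : PrC f ⟨c.w, c.Y, c.X, c.D⟩ :=
  ⟨h.w0, h.w1, h.Y0, h.X0, by have := h.sum; simp only; linarith, by rw [h.val]; simp only; ring⟩

/-- the rounded cell with the potential `X`; an absent cell stays -/
noncomputable def rX (b : Bool) (t : ℝ) (c : RC) : GC :=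
  if c.w < 0 then ⟨-20, 0, 0, 40⟩ else
  ⟨rI b t c.w, rI b t c.X, 20 + rI b t c.w - rI b t (c.X + c.D), rI b t (c.X + c.D) - rI b t c.X⟩

/-- the rounded cell, `p = true`: potential `X`, `p = false`: potential `Y` -/
noncomputable def rC (b p : Bool) (t : ℝ) (c : RC) : GC :=
  bif p then rX b t c else
    ⟨(rX b t ⟨c.w, c.Y, c.X, c.D⟩).w, (rX b t ⟨c.w, c.Y, c.X, c.D⟩).Y, (rX b t ⟨c.w, c.Y, c.X, c.D⟩).X,
      (rX b t ⟨c.w, c.Y, c.X, c.D⟩).D⟩

theorem near_int (n : ℤ) : Near (n : ℝ) n := by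
  constructor
  · rw [Int.floor_intCast]
  · rw [Int.ceil_intCast]

theorem near_rX {t : ℝ} (t0 : 0 ≤ t) (t1 : t < 1) (b : Bool) {f : ℝ} {c : RC}
    (h : PrC f c ∨ AbC f c) : NearC c (rX b t c) := by
  rcases h with h | h
  · unfold rX
    rw [if_neg (not_lt.2 h.w0)]
    have eY : c.Y = 20 + (c.w - (c.X + c.D)) := by linarith [h.sum]
    have k1 := rI_sub_near b t (c.X + c.D) c.w
    have e20 : ∀ (x : ℝ) (m : ℤ), Near x m → Near (20 + x) (20 + m) := by
      intro x m hm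
      have h1 := hm.1
      have h2 := hm.2
      constructor
      · rw [show (20 : ℝ) + x = x + (20 : ℤ) by push_cast; ring, Int.floor_add_intCast]
        omega
      · rw [show (20 : ℝ) + x = x + (20 : ℤ) by push_cast; ring, Int.ceil_add_intCast]
        omega
    refine ⟨rI_near t0 t1 b _, rI_near t0 t1 b _, ?_, ?_, rI_sub_near b t _ _, ?_, ?_⟩
    · show Near c.Y (20 + rI b t c.w - rI b t (c.X + c.D))
      rw [eY]
      have := e20 _ _ k1
      rwa [show 20 + (rI b t c.w - rI b t (c.X + c.D)) = 20 + rI b t c.w - rI b t (c.X + c.D) by ring]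
        at this
    · show Near c.D (rI b t (c.X + c.D) - rI b t c.X)
      have := rI_sub_near b t c.X (c.X + c.D)
      rwa [show c.X + c.D - c.X = c.D by ring] at this
    · show Near (c.Y - c.w) (20 + rI b t c.w - rI b t (c.X + c.D) - rI b t c.w)
      have := e20 _ _ (near_neg (rI_near t0 t1 b (c.X + c.D)))
      rwa [show 20 + -(c.X + c.D) = c.Y - c.w by rw [eY]; ring,
        show 20 + -rI b t (c.X + c.D) = 20 + rI b t c.w - rI b t (c.X + c.D) - rI b t c.w by ring] at this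
    · push_cast
      rw [eY]
      ring
  · unfold rX
    rw [if_pos (by rw [h.w]; norm_num)]
    refine ⟨?_, ?_, ?_, ?_, ?_, ?_, ?_⟩
    · rw [h.w]
      have := near_int (-20)
      push_cast at this
      exact this
    · rw [h.X]
      have := near_int 0
      push_cast at this
      exact this
    · rw [h.Y]
      have := near_int 0
      push_cast at this
      exact this
    · rw [h.D]
      have := near_int 40
      push_cast at this
      exact this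
    · rw [h.X, h.w, show (0 : ℝ) - -20 = ((20 : ℤ) : ℝ) by norm_num]
      exact near_int 20
    · rw [h.Y, h.w, show (0 : ℝ) - -20 = ((20 : ℤ) : ℝ) by norm_num]
      exact near_int 20
    · rw [h.D, h.w, h.X, h.Y]
      norm_num

theorem near_rC {t : ℝ} (t0 : 0 ≤ t) (t1 : t < 1) (b p : Bool) {f : ℝ} {c : RC}
    (h : PrC f c ∨ AbC f c) : NearC c (rC b p t c) := by
  cases p
  · have k := near_rX t0 t1 b (c := ⟨c.w, c.Y, c.X, c.D⟩) (f := f) (h.imp (fun h => h.swap) fun h => h.swap)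
    exact ⟨k.w, k.Y, k.X, k.D, k.Yw, k.Xw, by
      have := k.dsp
      simp only at this
      show ((rX b t ⟨c.w, c.Y, c.X, c.D⟩).D : ℝ) - c.D =
        ((rX b t ⟨c.w, c.Y, c.X, c.D⟩).w - c.w) - ((rX b t ⟨c.w, c.Y, c.X, c.D⟩).Y - c.X)
          - ((rX b t ⟨c.w, c.Y, c.X, c.D⟩).X - c.Y)
      linarith⟩
  · exact near_rX t0 t1 b h

/-- the sum of the components of a rounded cell -/
def GC.Sum (g : GC) : Prop := g.X + g.Y + g.D = 20 + g.w ∨ g = ⟨-20, 0, 0, 40⟩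

theorem sum_rC (b p : Bool) (t : ℝ) (c : RC) : (rC b p t c).Sum := by
  have k : ∀ c : RC, (rX b t c).X + (rX b t c).Y + (rX b t c).D = 20 + (rX b t c).w ∨
      rX b t c = ⟨-20, 0, 0, 40⟩ := by
    intro c
    unfold rX
    split_ifs with h
    · exact Or.inr rfl
    · left
      simp only
      ring
  cases p
  · rcases k ⟨c.w, c.Y, c.X, c.D⟩ with h | h
    · left
      show (rX b t ⟨c.w, c.Y, c.X, c.D⟩).Y + (rX b t ⟨c.w, c.Y, c.X, c.D⟩).X +
        (rX b t ⟨c.w, c.Y, c.X, c.D⟩).D = 20 + (rX b t ⟨c.w, c.Y, c.X, c.D⟩).w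
      linarith
    · right
      show GC.mk (rX b t ⟨c.w, c.Y, c.X, c.D⟩).w (rX b t ⟨c.w, c.Y, c.X, c.D⟩).Y
        (rX b t ⟨c.w, c.Y, c.X, c.D⟩).X (rX b t ⟨c.w, c.Y, c.X, c.D⟩).D = _
      rw [h]
  · exact k c

/-- the three displacements of a cell -/
noncomputable def dz (p : Bool) (c : RC) : Fin 3 → ℝ :=
  bif p then ![c.w, c.X, c.X + c.D] else ![c.w, c.Y, c.Y + c.D]

/-- `F ≤ F' t + K` up to a linear function of the displacements of the numbers `z` with the signs `b` -/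
def Rd {ι : Type*} [Fintype ι] (b : ι → Bool) (z : ι → ℝ) (F : ℝ) (F' : ℝ → ℝ) (K : ℝ) : Prop :=
  ∃ κ : ι → ℝ, ∀ t : ℝ, 0 ≤ t → t < 1 → F ≤ F' t + K + ∑ k, κ k * ((rI (b k) t (z k) : ℝ) - z k)

theorem Rd.add {ι : Type*} [Fintype ι] {b : ι → Bool} {z : ι → ℝ} {F1 F2 : ℝ} {G1 G2 : ℝ → ℝ}
    {K1 K2 : ℝ} (h1 : Rd b z F1 G1 K1) (h2 : Rd b z F2 G2 K2) :
    Rd b z (F1 + F2) (fun t => G1 t + G2 t) (K1 + K2) := by
  obtain ⟨k1, h1⟩ := h1
  obtain ⟨k2, h2⟩ := h2
  refine ⟨fun k => k1 k + k2 k, fun t t0 t1 => ?_⟩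
  have e : ∑ k, (k1 k + k2 k) * ((rI (b k) t (z k) : ℝ) - z k) =
      ∑ k, k1 k * ((rI (b k) t (z k) : ℝ) - z k) + ∑ k, k2 k * ((rI (b k) t (z k) : ℝ) - z k) := by
    rw [← Finset.sum_add_distrib]
    exact Finset.sum_congr rfl fun k _ => by ring
  rw [e]
  have a1 := h1 t t0 t1
  have a2 := h2 t t0 t1
  linarith

/-- a good threshold -/
theorem Rd.exists {ι : Type*} [Fintype ι] {b : ι → Bool} {z : ι → ℝ} {F : ℝ} {G : ℝ → ℝ} {K : ℝ}
    (h : Rd b z F G K) : ∃ t : ℝ, 0 ≤ t ∧ t < 1 ∧ F ≤ G t + K := by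
  obtain ⟨κ, h⟩ := h
  obtain ⟨t, t0, t1, ht⟩ := Pool.Agent.Helper95.TS.exists_theta Finset.univ
    (fun k => (bif b k then -κ k else κ k)) (fun k => (bif b k then z k else -z k))
  refine ⟨t, t0, t1, ?_⟩
  have h1 := h t t0 t1
  have e : ∑ k, κ k * ((rI (b k) t (z k) : ℝ) - z k) =
      -∑ k, (bif b k then -κ k else κ k) *
        ((⌊(bif b k then z k else -z k) + t⌋ : ℝ) - (bif b k then z k else -z k)) := by
    rw [← Finset.sum_neg_distrib]
    refine Finset.sum_congr rfl fun k _ => ?_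
    cases hb : b k
    · simp only [rI, cond_false]
      push_cast
      ring
    · simp only [rI, cond_true]
      ring
  rw [e] at h1
  linarith

/-! ### The three numbers of a rounded cell -/

section

variable {t : ℝ} {b p : Bool} {f : ℝ} {c : RC}

theorem rX_eq (t0 : 0 ≤ t) (t1 : t < 1) (b : Bool) (h : PrC f c ∨ AbC f c) :
    (rX b t c).w = rI b t c.w ∧ (rX b t c).X = rI b t c.X ∧
      ((rX b t c).Y : ℝ) - c.Y = ((rI b t c.w : ℝ) - c.w) - ((rI b t (c.X + c.D) : ℝ) - (c.X + c.D)) := by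
  rcases h with h | h
  · unfold rX
    rw [if_neg (not_lt.2 h.w0)]
    refine ⟨rfl, rfl, ?_⟩
    push_cast
    linarith [h.sum]
  · unfold rX
    rw [if_pos (by rw [h.w]; norm_num), h.w, h.X, h.Y, h.D]
    have e1 : rI b t (-20) = -20 := by
      have := rI_int t0 t1 b (-20)
      push_cast at this
      exact this
    have e2 : rI b t 0 = 0 := by
      have := rI_int t0 t1 b 0
      push_cast at this
      exact this
    have e3 : rI b t (0 + 40) = 40 := by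
      have := rI_int t0 t1 b 40
      push_cast at this
      rwa [zero_add]
    rw [e1, e2, e3]
    norm_num

/-- the potential -/
def RC.pt (c : RC) (p : Bool) : ℝ := bif p then c.X else c.Y

theorem rC_w (t0 : 0 ≤ t) (t1 : t < 1) (b p : Bool) (h : PrC f c ∨ AbC f c) :
    (rC b p t c).w = rI b t c.w := by
  cases p
  · exact (rX_eq t0 t1 b (c := ⟨c.w, c.Y, c.X, c.D⟩) (f := f)
      (h.imp (fun h => h.swap) fun h => h.swap)).1
  · exact (rX_eq t0 t1 b h).1

theorem rC_X (t0 : 0 ≤ t) (t1 : t < 1) (b : Bool) (h : PrC f c ∨ AbC f c) :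
    (rC b true t c).X = rI b t c.X := (rX_eq t0 t1 b h).2.1

theorem rC_Y (t0 : 0 ≤ t) (t1 : t < 1) (b : Bool) (h : PrC f c ∨ AbC f c) :
    (rC b false t c).Y = rI b t c.Y :=
  (rX_eq t0 t1 b (c := ⟨c.w, c.Y, c.X, c.D⟩) (f := f) (h.imp (fun h => h.swap) fun h => h.swap)).2.1

/-- linear functions of the rounded cell are linear in the displacements of `dz` -/
theorem rC_lin (b p : Bool) (h : PrC f c ∨ AbC f c) (α β γ : ℝ) : ∃ κ : Fin 3 → ℝ,
    ∀ t : ℝ, 0 ≤ t → t < 1 →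
      α * ((rC b p t c).w - c.w) + β * ((rC b p t c).X - c.X) + γ * ((rC b p t c).Y - c.Y) =
        ∑ k, κ k * ((rI b t (dz p c k) : ℝ) - dz p c k) := by
  cases p
  · refine ⟨![α + β, γ, -β], fun t t0 t1 => ?_⟩
    obtain ⟨h1, h2, h3⟩ := rX_eq t0 t1 b (c := ⟨c.w, c.Y, c.X, c.D⟩) (f := f)
      (h.imp (fun h => h.swap) fun h => h.swap)
    have e1 : (rC b false t c).w = rI b t c.w := h1
    have e2 : (rC b false t c).Y = rI b t c.Y := h2
    have e3 : ((rC b false t c).X : ℝ) - c.X =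
      ((rI b t c.w : ℝ) - c.w) - ((rI b t (c.Y + c.D) : ℝ) - (c.Y + c.D)) := h3
    rw [e1, e2, e3, Fin.sum_univ_three]
    simp only [dz, cond_false, Matrix.cons_val_zero, Matrix.cons_val_one, Matrix.cons_val]
    ring
  · refine ⟨![α + γ, β, -γ], fun t t0 t1 => ?_⟩
    obtain ⟨e1, e2, e3⟩ := rX_eq t0 t1 b h
    have e1 : (rC b true t c).w = rI b t c.w := e1
    have e2 : (rC b true t c).X = rI b t c.X := e2
    have e3 : ((rC b true t c).Y : ℝ) - c.Y =
      ((rI b t c.w : ℝ) - c.w) - ((rI b t (c.X + c.D) : ℝ) - (c.X + c.D)) := e3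
    rw [e1, e2, e3, Fin.sum_univ_three]
    simp only [dz, cond_true, Matrix.cons_val_zero, Matrix.cons_val_one, Matrix.cons_val]
    ring

theorem rnd_rI (b : Bool) (t z : ℝ) : rnd (bif b then 1 else -1) t z = (rI b t z : ℝ) := by
  cases b
  · simp only [cond_false, rnd_neg_one, rI]
    push_cast
    rfl
  · simp only [cond_true, rnd_one, rI]

/-- the volume of a cell with the potential `X` -/
theorem vol_rX (b : Bool) (h : PrC f c ∨ AbC f c) :
    Rd (fun _ => b) (dz true c) (24000 * f) (fun t => ((rX b t c).vol : ℝ)) 22 := by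
  rcases h with h | h
  · have hε : (bif b then (1 : ℝ) else -1) = 1 ∨ (bif b then (1 : ℝ) else -1) = -1 := by
      cases b
      · exact Or.inr rfl
      · exact Or.inl rfl
    obtain ⟨κ, hκ⟩ := cell_round (w := c.w) (A := c.X) (s := c.X + c.D) hε h.w0 h.w1 h.X0
      (by linarith [h.sum, h.Y0])
    refine ⟨κ, fun t t0 t1 => ?_⟩
    have k := hκ t t0 t1
    simp only [rnd_rI] at k
    have w0 : 0 ≤ rI b t c.w := by
      have := rI_mono b t h.w0
      have e := rI_int t0 t1 b 0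
      push_cast at e
      rwa [e] at this
    have eG : 24000 * f = Gc c.w c.X (c.X + c.D) := by
      rw [h.val, Gc, show 20 + c.w - (c.X + c.D) = c.Y by linarith [h.sum],
        show c.X + c.D - 20 = c.w - c.Y by linarith [h.sum]]
    have eV : ((rX b t c).vol : ℝ) = Gc (rI b t c.w) (rI b t c.X) (rI b t (c.X + c.D)) := by
      unfold rX GC.vol
      rw [if_neg (not_lt.2 h.w0)]
      simp only
      rw [if_neg (not_lt.2 w0), Gc]
      push_cast
      rw [show (rI b t c.w : ℝ) - (20 + rI b t c.w - rI b t (c.X + c.D)) =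
        rI b t (c.X + c.D) - 20 by ring]
    beta_reduce
    rw [eG, eV, Fin.sum_univ_three]
    simp only [dz, cond_true, Matrix.cons_val_zero, Matrix.cons_val_one, Matrix.cons_val]
    linarith
  · refine ⟨fun _ => 0, fun t t0 t1 => ?_⟩
    have e : (rX b t c).vol = 0 := by
      unfold rX
      rw [if_pos (by rw [h.w]; norm_num)]
      rfl
    beta_reduce
    rw [h.val, e]
    simp

theorem vol_swap (g : GC) : (GC.mk g.w g.Y g.X g.D).vol = g.vol := by
  unfold GC.vol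
  simp only
  split_ifs
  · rfl
  · ring

/-- the volume of a rounded cell -/
theorem vol_rC (b p : Bool) (h : PrC f c ∨ AbC f c) :
    Rd (fun _ => b) (dz p c) (24000 * f) (fun t => ((rC b p t c).vol : ℝ)) 22 := by
  cases p
  · obtain ⟨κ, hκ⟩ := vol_rX b (c := ⟨c.w, c.Y, c.X, c.D⟩) (f := f)
      (h.imp (fun h => h.swap) fun h => h.swap)
    refine ⟨κ, fun t t0 t1 => ?_⟩
    have k := hκ t t0 t1
    have e : (rC b false t c).vol = (rX b t ⟨c.w, c.Y, c.X, c.D⟩).vol :=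
      vol_swap (rX b t ⟨c.w, c.Y, c.X, c.D⟩)
    simp only [e]
    exact k
  · exact vol_rX b h

end

/-! ### Prices -/

/-- `F ≤ F' g + K` for every neighbour `g` up to a linear function -/
def Aff (c : RC) (F : ℝ) (F' : GC → ℝ) (K : ℝ) : Prop :=
  ∃ α β γ : ℝ, ∀ g : GC, NearC c g →
    F ≤ F' g + K + (α * (g.w - c.w) + β * (g.X - c.X) + γ * (g.Y - c.Y))

theorem Aff.add {c : RC} {F1 F2 : ℝ} {G1 G2 : GC → ℝ} {K1 K2 : ℝ} (h1 : Aff c F1 G1 K1)
    (h2 : Aff c F2 G2 K2) : Aff c (F1 + F2) (fun g => G1 g + G2 g) (K1 + K2) := by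
  obtain ⟨a, b, d, h1⟩ := h1
  obtain ⟨a', b', d', h2⟩ := h2
  refine ⟨a + a', b + b', d + d', fun g hg => ?_⟩
  have k1 := h1 g hg
  have k2 := h2 g hg
  linarith

theorem Aff.zero (c : RC) : Aff c 0 (fun _ => 0) 0 := ⟨0, 0, 0, fun g _ => by simp⟩

theorem Aff.tab_w (φ : ℤ → ℝ) (c : RC) : Aff c (interp φ c.w) (fun g => φ g.w) 0 := by
  refine ⟨-(φ (⌊c.w⌋ + 1) - φ ⌊c.w⌋), 0, 0, fun g hg => ?_⟩
  have := interp_near φ hg.w
  linarith

theorem Aff.tab_X (φ : ℤ → ℝ) (c : RC) : Aff c (interp φ c.X) (fun g => φ g.X) 0 := by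
  refine ⟨0, -(φ (⌊c.X⌋ + 1) - φ ⌊c.X⌋), 0, fun g hg => ?_⟩
  have := interp_near φ hg.X
  linarith

theorem Aff.tab_Y (φ : ℤ → ℝ) (c : RC) : Aff c (interp φ c.Y) (fun g => φ g.Y) 0 := by
  refine ⟨0, 0, -(φ (⌊c.Y⌋ + 1) - φ ⌊c.Y⌋), fun g hg => ?_⟩
  have := interp_near φ hg.Y
  linarith

theorem Aff.tab_D (φ : ℤ → ℝ) (c : RC) : Aff c (interp φ c.D) (fun g => φ g.D) 0 := by
  obtain ⟨s, hs⟩ : ∃ s, s = φ (⌊c.D⌋ + 1) - φ ⌊c.D⌋ := ⟨_, rfl⟩
  refine ⟨-s, s, s, fun g hg => ?_⟩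
  have := interp_near φ hg.D
  rw [← hs, hg.dsp] at this
  linarith

theorem Aff.tab_Xw (φ : ℤ → ℝ) (c : RC) :
    Aff c (interp φ (c.X - c.w)) (fun g => φ (g.X - g.w)) 0 := by
  obtain ⟨s, hs⟩ : ∃ s, s = φ (⌊c.X - c.w⌋ + 1) - φ ⌊c.X - c.w⌋ := ⟨_, rfl⟩
  refine ⟨s, -s, 0, fun g hg => ?_⟩
  have := interp_near φ hg.Xw
  push_cast at this
  rw [← hs] at this
  linarith

theorem Aff.tab_Yw (φ : ℤ → ℝ) (c : RC) :
    Aff c (interp φ (c.Y - c.w)) (fun g => φ (g.Y - g.w)) 0 := by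
  obtain ⟨s, hs⟩ : ∃ s, s = φ (⌊c.Y - c.w⌋ + 1) - φ ⌊c.Y - c.w⌋ := ⟨_, rfl⟩
  refine ⟨s, 0, -s, fun g hg => ?_⟩
  have := interp_near φ hg.Yw
  push_cast at this
  rw [← hs] at this
  linarith

/-- a smooth table at an integer at a distance less than `2` -/
theorem interp_far (φ : ℤ → ℝ) {κ : ℝ} (x : ℝ) {m : ℤ} (h1 : x - 2 < m) (h2 : (m : ℝ) < x + 2)
    (ha : |φ (⌊x⌋ + 2) - 2 * φ (⌊x⌋ + 1) + φ ⌊x⌋| ≤ κ)
    (hb : |φ (⌊x⌋ + 1) - 2 * φ ⌊x⌋ + φ (⌊x⌋ - 1)| ≤ κ) :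
    interp φ x ≤ φ m + κ - (φ (⌊x⌋ + 1) - φ ⌊x⌋) * (m - x) := by
  have k0 := Int.floor_le x
  have k1 := Int.lt_floor_add_one x
  have hκ : 0 ≤ κ := (abs_nonneg _).trans ha
  obtain ⟨a1, a2⟩ := abs_le.1 ha
  obtain ⟨b1, b2⟩ := abs_le.1 hb
  have m1 : ⌊x⌋ - 1 ≤ m := by
    have : ((⌊x⌋ - 2 : ℤ) : ℝ) < m := by push_cast; linarith
    have : ⌊x⌋ - 2 < m := by exact_mod_cast this
    omega
  have m2 : m ≤ ⌊x⌋ + 2 := by
    have : (m : ℝ) < ((⌊x⌋ + 3 : ℤ) : ℝ) := by push_cast; linarith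
    have : m < ⌊x⌋ + 3 := by exact_mod_cast this
    omega
  have : m = ⌊x⌋ - 1 ∨ m = ⌊x⌋ ∨ m = ⌊x⌋ + 1 ∨ m = ⌊x⌋ + 2 := by omega
  unfold interp
  rcases this with rfl | rfl | rfl | rfl
  · push_cast
    nlinarith
  · nlinarith
  · push_cast
    nlinarith
  · push_cast
    nlinarith

/-- a smooth table of `D + w` -/
theorem Aff.tab_Dw (φ : ℤ → ℝ) (c : RC) {κ : ℝ}
    (hφ : ∀ n, |φ (n + 1) - 2 * φ n + φ (n - 1)| ≤ κ) :
    Aff c (interp φ (c.D + c.w)) (fun g => φ (g.D + g.w)) κ := by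
  obtain ⟨s, hs⟩ : ∃ s, s = φ (⌊c.D + c.w⌋ + 1) - φ ⌊c.D + c.w⌋ := ⟨_, rfl⟩
  refine ⟨-2 * s, s, s, fun g hg => ?_⟩
  have n1 := hg.D.abs_lt
  have n2 := hg.w.abs_lt
  have lt : ∀ {x : ℝ} {m : ℤ}, Near x m → x - 1 < m ∧ (m : ℝ) < x + 1 := by
    intro x m h
    have h1 : (⌊x⌋ : ℝ) ≤ m := by exact_mod_cast h.1
    have h2 : (m : ℝ) ≤ ⌈x⌉ := by exact_mod_cast h.2
    have h3 := Int.lt_floor_add_one x
    have h4 := Int.ceil_lt_add_one x
    constructor <;> linarith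
  obtain ⟨d1, d2⟩ := lt hg.D
  obtain ⟨w1, w2⟩ := lt hg.w
  have k := interp_far φ (κ := κ) (c.D + c.w) (m := g.D + g.w) (by push_cast; linarith)
    (by push_cast; linarith) (by
      have := hφ (⌊c.D + c.w⌋ + 1)
      rwa [show ⌊c.D + c.w⌋ + 1 + 1 = ⌊c.D + c.w⌋ + 2 by ring, add_sub_cancel_right] at this)
    (by
      have := hφ ⌊c.D + c.w⌋
      exact this)
  rw [← hs] at k
  push_cast at k
  have e := hg.dsp
  have e2 : s * (g.D - c.D) = s * ((g.w - c.w) - (g.X - c.X) - (g.Y - c.Y)) := by rw [e]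
  linarith

/-- the price of the positive part of the width -/
theorem Aff.pos_w {f : ℝ} (β : ℝ) {c : RC} (h : PrC f c ∨ AbC f c) :
    Aff c (-β * max c.w 0) (fun g => -β * (max g.w 0 : ℤ)) 0 := by
  rcases h with h | h
  · refine ⟨β, 0, 0, fun g hg => ?_⟩
    have g0 : 0 ≤ g.w := hg.w.ge_of_ge (c := 0) (by push_cast; exact h.w0)
    beta_reduce
    rw [max_eq_left h.w0, max_eq_left g0]
    linarith
  · refine ⟨0, 0, 0, fun g hg => ?_⟩
    have g0 : g.w ≤ 0 := hg.w.le_of_le (c := 0) (by push_cast; rw [h.w]; norm_num)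
    beta_reduce
    rw [h.w, max_eq_right (by norm_num), max_eq_right g0]
    simp

/-! ### The class -/

theorem Aff.rd {f : ℝ} {c : RC} (b p : Bool) (h : PrC f c ∨ AbC f c) {F : ℝ} {F' : GC → ℝ} {K : ℝ}
    (k : Aff c F F' K) : Rd (fun _ => b) (dz p c) F (fun t => F' (rC b p t c)) K := by
  obtain ⟨α, β, γ, k⟩ := k
  obtain ⟨κ, hκ⟩ := rC_lin b p h α β γ
  refine ⟨κ, fun t t0 t1 => ?_⟩
  rw [← hκ t t0 t1]
  exact k _ (near_rC t0 t1 b p h)

theorem Rd.sum {b : Fin 3 → Bool} {z : Fin 3 → Fin 3 → ℝ} {F K : Fin 3 → ℝ} {G : Fin 3 → ℝ → ℝ}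
    (h : ∀ k, Rd (fun _ => b k) (z k) (F k) (G k) (K k)) :
    Rd (fun q : Fin 3 × Fin 3 => b q.1) (fun q => z q.1 q.2) (∑ k, F k) (fun t => ∑ k, G k t)
      (∑ k, K k) := by
  choose κ hκ using h
  refine ⟨fun q => κ q.1 q.2, fun t t0 t1 => ?_⟩
  rw [Fintype.sum_prod_type, ← Finset.sum_add_distrib, ← Finset.sum_add_distrib]
  exact Finset.sum_le_sum fun k _ => hκ k t t0 t1

/-- **Rounding of the three cells of a class with one threshold**, any signs and potentials. -/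
theorem class_round {c : Fin 3 → RC} {f : Fin 3 → ℝ} (h : ∀ k, PrC (f k) (c k) ∨ AbC (f k) (c k))
    {F : Fin 3 → ℝ} {F' : Fin 3 → GC → ℝ} {K : Fin 3 → ℝ} (hF : ∀ k, Aff (c k) (F k) (F' k) (K k))
    (b p : Fin 3 → Bool) : ∃ t : ℝ, 0 ≤ t ∧ t < 1 ∧
      ∑ k, (24000 * f k + F k) ≤
        ∑ k, (((rC (b k) (p k) t (c k)).vol : ℝ) + F' k (rC (b k) (p k) t (c k)))
          + (66 + ∑ k, K k) := by
  have h1 := Rd.sum (fun k => (vol_rC (b k) (p k) (h k)).add ((hF k).rd (b k) (p k) (h k)))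
  obtain ⟨t, t0, t1, ht⟩ := h1.exists
  refine ⟨t, t0, t1, ?_⟩
  have e : ∑ k, (22 + K k) = 66 + ∑ k, K k := by
    rw [Fin.sum_univ_three, Fin.sum_univ_three]
    ring
  rwa [e] at ht

/-- the relation of a pair of cells `(k, k + 1)`: `o = true`: `X` of the first bounds the width of the
second; `o = false`: `Y` of the second bounds the width of the first -/
def PairOK (o : Bool) (e : ℤ) (g h : GC) : Prop :=
  bif o then g.X + h.w ≤ 20 + e else h.Y + g.w ≤ 20 + e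

/-- the same for real cells -/
def PairR (o : Bool) (c d : RC) : Prop := bif o then c.X + d.w ≤ 20 else d.Y + c.w ≤ 20

theorem pair_relaxed {o : Bool} {c d : RC} {g h : GC} (hc : NearC c g) (hd : NearC d h)
    (r : PairR o c d) : PairOK o 1 g h := by
  cases o
  · have := near_pair hd.Y hc.w r
    show h.Y + g.w ≤ 20 + 1
    omega
  · have := near_pair hc.X hd.w r
    show g.X + h.w ≤ 20 + 1
    omega

theorem pair_exact {o b b' : Bool} {f f' t : ℝ} (t0 : 0 ≤ t) (t1 : t < 1) {c d : RC}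
    (hb : b' = !b) (hc : PrC f c ∨ AbC f c) (hd : PrC f' d ∨ AbC f' d) (r : PairR o c d) :
    PairOK o 0 (rC b o t c) (rC b' o t d) := by
  cases o
  · show (rC b' false t d).Y + (rC b false t c).w ≤ 20 + 0
    rw [rC_Y t0 t1 b' hd, rC_w t0 t1 b false hc]
    have r' : d.Y + c.w ≤ 20 := r
    have := rI_pair (b := b') (b' := b) (by rw [hb, Bool.not_not]) t r'
    omega
  · show (rC b true t c).X + (rC b' true t d).w ≤ 20 + 0
    rw [rC_X t0 t1 b hc, rC_w t0 t1 b' true hd]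
    have r' : c.X + d.w ≤ 20 := r
    have := rI_pair hb t r'
    omega

/-- the slacks of the pairs `(0, 1)`, `(1, 2)`, `(2, 0)`: one pair is relaxed by `1` -/
def sl (o0 o1 o2 : Bool) : ℤ × ℤ × ℤ :=
  bif Bool.xor o1 o2 then (bif Bool.xor o0 o2 then (bif Bool.xor o0 o1 then (0, 1, 0) else (0, 0, 1)) else (0, 1, 0))
  else (bif Bool.xor o0 o1 then (1, 0, 0) else (0, 1, 0))

/-- **The relations of three rounded cells.** -/
def Tri (o0 o1 o2 : Bool) (g0 g1 g2 : GC) : Prop :=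
  PairOK o0 (sl o0 o1 o2).1 g0 g1 ∧ PairOK o1 (sl o0 o1 o2).2.1 g1 g2 ∧
    PairOK o2 (sl o0 o1 o2).2.2 g2 g0

theorem PairOK.mono {o : Bool} {e e' : ℤ} (he : e ≤ e') {g h : GC} (k : PairOK o e g h) :
    PairOK o e' g h := by
  cases o
  · have : h.Y + g.w ≤ 20 + e := k
    show h.Y + g.w ≤ 20 + e'
    omega
  · have : g.X + h.w ≤ 20 + e := k
    show g.X + h.w ≤ 20 + e'
    omega

/-- **The class block.** -/
theorem class_block {c : Fin 3 → RC} {f : Fin 3 → ℝ} (h : ∀ k, PrC (f k) (c k) ∨ AbC (f k) (c k))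
    (r0 : PairR true (c 0) (c 1) ∨ PairR false (c 0) (c 1))
    (r1 : PairR true (c 1) (c 2) ∨ PairR false (c 1) (c 2))
    (r2 : PairR true (c 2) (c 0) ∨ PairR false (c 2) (c 0))
    {F : Fin 3 → ℝ} {F' : Fin 3 → GC → ℝ} {K : Fin 3 → ℝ} (hF : ∀ k, Aff (c k) (F k) (F' k) (K k))
    {M : ℝ} (hM : ∀ (o0 o1 o2 : Bool) (g : Fin 3 → GC), (∀ k, NearC (c k) (g k)) → (∀ k, (g k).Sum) →
      Tri o0 o1 o2 (g 0) (g 1) (g 2) → ∑ k, (((g k).vol : ℝ) + F' k (g k)) ≤ M) :
    ∑ k, (24000 * f k + F k) ≤ M + (66 + ∑ k, K k) := by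
  -- one pair relaxed: `j`, the common cell `m` of the two others has the sign `false`
  have key : ∀ (o0 o1 o2 : Bool) (b p : Fin 3 → Bool),
      (∀ t : ℝ, 0 ≤ t → t < 1 → Tri o0 o1 o2 (rC (b 0) (p 0) t (c 0)) (rC (b 1) (p 1) t (c 1))
        (rC (b 2) (p 2) t (c 2))) → ∑ k, (24000 * f k + F k) ≤ M + (66 + ∑ k, K k) := by
    intro o0 o1 o2 b p hT
    obtain ⟨t, t0, t1, ht⟩ := class_round h hF b p
    refine ht.trans ?_
    have := hM o0 o1 o2 (fun k => rC (b k) (p k) t (c k)) (fun k => near_rC t0 t1 _ _ (h k))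
      (fun k => sum_rC _ _ _ _) (hT t t0 t1)
    linarith
  -- relaxed pair `(0, 1)`, common cell `2`
  have k01 : ∀ o0 o : Bool, PairR o0 (c 0) (c 1) → PairR o (c 1) (c 2) → PairR o (c 2) (c 0) →
      sl o0 o o = (1, 0, 0) → ∑ k, (24000 * f k + F k) ≤ M + (66 + ∑ k, K k) := by
    intro o0 o q0 q1 q2 hs
    refine key o0 o o ![true, true, false] (fun _ => o) fun t t0 t1 => ?_
    unfold Tri
    rw [hs]
    exact ⟨pair_relaxed (near_rC t0 t1 _ _ (h 0)) (near_rC t0 t1 _ _ (h 1)) q0,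
      pair_exact t0 t1 rfl (h 1) (h 2) q1, pair_exact t0 t1 rfl (h 2) (h 0) q2⟩
  -- relaxed pair `(1, 2)`, common cell `0`
  have k12 : ∀ o1 o : Bool, PairR o (c 0) (c 1) → PairR o1 (c 1) (c 2) → PairR o (c 2) (c 0) →
      sl o o1 o = (0, 1, 0) → ∑ k, (24000 * f k + F k) ≤ M + (66 + ∑ k, K k) := by
    intro o1 o q0 q1 q2 hs
    refine key o o1 o ![false, true, true] (fun _ => o) fun t t0 t1 => ?_
    unfold Tri
    rw [hs]
    exact ⟨pair_exact t0 t1 rfl (h 0) (h 1) q0,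
      pair_relaxed (near_rC t0 t1 _ _ (h 1)) (near_rC t0 t1 _ _ (h 2)) q1,
      pair_exact t0 t1 rfl (h 2) (h 0) q2⟩
  -- relaxed pair `(2, 0)`, common cell `1`
  have k20 : ∀ o2 o : Bool, PairR o (c 0) (c 1) → PairR o (c 1) (c 2) → PairR o2 (c 2) (c 0) →
      sl o o o2 = (0, 0, 1) → ∑ k, (24000 * f k + F k) ≤ M + (66 + ∑ k, K k) := by
    intro o2 o q0 q1 q2 hs
    refine key o o o2 ![true, false, true] (fun _ => o) fun t t0 t1 => ?_
    unfold Tri
    rw [hs]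
    exact ⟨pair_exact t0 t1 rfl (h 0) (h 1) q0, pair_exact t0 t1 rfl (h 1) (h 2) q1,
      pair_relaxed (near_rC t0 t1 _ _ (h 2)) (near_rC t0 t1 _ _ (h 0)) q2⟩
  rcases r0 with r0 | r0 <;> rcases r1 with r1 | r1 <;> rcases r2 with r2 | r2
  · exact k12 true true r0 r1 r2 rfl
  · exact k20 false true r0 r1 r2 rfl
  · exact k12 false true r0 r1 r2 rfl
  · exact k01 true false r0 r1 r2 rfl
  · exact k01 false true r0 r1 r2 rfl
  · exact k12 true false r0 r1 r2 rfl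
  · exact k20 true false r0 r1 r2 rfl
  · exact k12 false false r0 r1 r2 rfl

/-- **The class block without pair relations** (main cell present): three separate maxima. -/
theorem class_free {c : Fin 3 → RC} {f : Fin 3 → ℝ} (h : ∀ k, PrC (f k) (c k) ∨ AbC (f k) (c k))
    {F : Fin 3 → ℝ} {F' : Fin 3 → GC → ℝ} {K : Fin 3 → ℝ} (hF : ∀ k, Aff (c k) (F k) (F' k) (K k))
    (β : ℝ) {M : Fin 3 → ℝ} (hM : ∀ k g, NearC (c k) g → g.Sum →
      (g.vol : ℝ) + F' k g - β * (max g.w 0 : ℤ) ≤ M k) :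
    ∑ k, (24000 * f k + F k - β * max (c k).w 0) ≤ ∑ k, M k + (66 + ∑ k, K k) := by
  obtain ⟨t, t0, t1, ht⟩ := class_round h (fun k => (hF k).add (Aff.pos_w β (h k)))
    (fun _ => true) (fun _ => true)
  have e1 : ∑ k, (24000 * f k + F k - β * max (c k).w 0) =
      ∑ k, (24000 * f k + (F k + -β * max (c k).w 0)) :=
    Finset.sum_congr rfl fun k _ => by ring
  rw [e1]
  refine ht.trans ?_
  have e2 : ∑ k, (K k + 0) = ∑ k, K k := Finset.sum_congr rfl fun k _ => by ring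
  rw [e2]
  have := Finset.sum_le_sum fun k (_ : k ∈ Finset.univ) =>
    hM k _ (near_rC t0 t1 true true (h k)) (sum_rC true true t (c k))
  have e3 : ∑ k, (((rC true true t (c k)).vol : ℝ) + (F' k (rC true true t (c k)) +
      -β * (max (rC true true t (c k)).w 0 : ℤ))) =
      ∑ k, (((rC true true t (c k)).vol : ℝ) + F' k (rC true true t (c k)) -
        β * (max (rC true true t (c k)).w 0 : ℤ)) :=
    Finset.sum_congr rfl fun k _ => by ring
  rw [e3]
  linarith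

end Pool.Agent.Helper56.NE
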