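import Pool.Agent.Helper62.NE.Price
import Pool.Agent.Helper95.TS.RowRound

/-!
# The tables of a leaf: the kernel lists bound the semantic prices
-/

set_option autoImplicit false

namespace Pool.Agent.Helper56.NE

open Pool.Agent.Helper90.TS Pool.Agent.Helper95.TS Pool.Agent.Helper62.NE

/-- the index of a code -/
theorem ix_eq (C i : ℕ) : ix C i = if C = 0 then i else if C = 1 then 40 else min 60 (C - i) := by
  rcases C with _ | _ | C
  · rfl
  · rfl
  · rw [if_neg (by omega), if_neg (by omega)]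
    have e : ix (C + 2) i = Nat.sub (Nat.sub (C + 2) (Nat.sub (C + 2) 60))
        (Nat.sub i (Nat.sub (C + 2) 60)) := rfl
    rw [e]
    simp only [Nat.sub_eq]
    omega

/-- a table at a coded index -/
theorem Pt_cz (p C i : ℕ) (hi : i ≤ 60) : Pt p (cz C ((i : ℤ) - 20)) = (lk p (ix C i) : ℝ) := by
  unfold Pt
  rw [ix_eq]
  unfold cz
  by_cases h0 : C = 0
  · rw [if_pos h0, if_pos h0]
    congr 2
    omega
  · rw [if_neg h0, if_neg h0]
    by_cases h1 : C = 1
    · rw [if_pos h1, if_pos h1]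
      congr 2
    · rw [if_neg h1, if_neg h1]
      congr 2
      omega

theorem sc_eq (l : List (ℕ × ℕ)) {i : ℕ} (hi : i ≤ 60) :
    (l.map fun t => Pt t.2 (cz t.1 ((i : ℤ) - 20))).sum = (sc l i : ℝ) := by
  induction l with
  | nil =>
    have e : sc [] i = 0 := rfl
    rw [e]
    simp
  | cons t l ih =>
    have e : sc (t :: l) i = lk t.2 (ix t.1 i) + sc l i := rfl
    rw [List.map_cons, List.sum_cons, ih, e, Pt_cz _ _ _ hi]
    push_cast
    ring

theorem ev_ge (A B : ℕ) (p q : List (ℕ × ℕ)) (i : ℕ) :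
    (sc p i : ℝ) - sc q i + ((A : ℝ) - B) * ((i : ℝ) - 20) + 4194304 ≤ (ev A B p q i : ℝ) := by
  have h : 4194304 + sc p i + (A * i + 20 * B) ≤ ev A B p q i + (sc q i + (B * i + 20 * A)) := by
    have e : ev A B p q i = (4194304 + sc p i + (A * i + 20 * B)) - (sc q i + (B * i + 20 * A)) := rfl
    rw [e]
    omega
  have h' : ((4194304 + sc p i + (A * i + 20 * B) : ℕ) : ℝ) ≤
    ((ev A B p q i + (sc q i + (B * i + 20 * A)) : ℕ) : ℝ) := by exact_mod_cast h
  push_cast at h'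
  linarith

/-- the entries of the list -/
theorem nth_tl (fl ll : List (ℕ × ℕ)) (s : ℕ) (μ : Bool) {i : ℕ} (hi : i < 61) :
    nth 0 (tl fl ll s μ) i = ev (sa s ll) (sb s ll) (cpos s μ fl) (cneg s fl) i := by
  have key : ∀ (f : ℕ → ℕ) (m : ℕ), m ≤ 61 → ∀ j, j < m →
      nth 0 (Nat.rec (motive := fun _ => List ℕ) [] (fun n ih => f (Nat.sub 60 n) :: ih) m) j =
        f (61 - m + j) := by
    intro f m
    induction m with
    | zero =>
      intro _ j hj
      omega
    | succ m ih =>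
      intro hm j hj
      cases j with
      | zero =>
        show f (Nat.sub 60 m) = _
        congr 1
        simp only [Nat.sub_eq]
        omega
      | succ j =>
        show nth 0 (Nat.rec (motive := fun _ => List ℕ) [] (fun n ih => f (Nat.sub 60 n) :: ih) m) j = _
        rw [ih (by omega) j (by omega)]
        congr 1
        omega
  have h := key (ev (sa s ll) (sb s ll) (cpos s μ fl) (cneg s fl)) 61 le_rfl i hi
  rw [Nat.sub_self, Nat.zero_add] at h
  exact h

/-- the length of the list -/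
theorem length_tl (fl ll : List (ℕ × ℕ)) (s : ℕ) (μ : Bool) : (tl fl ll s μ).length = 61 := rfl

/-- **(EVAL) at the integers** -/
theorem tab_le (fl ll : List (ℕ × ℕ)) (s : ℕ) (μ : Bool) {n : ℤ} (h1 : -20 ≤ n) (h2 : n ≤ 40) :
    tab fl ll s μ n ≤ ltab (tl fl ll s μ) n := by
  obtain ⟨i, hi⟩ : ∃ i : ℕ, n = (i : ℤ) - 20 := ⟨(n + 20).toNat, by omega⟩
  have hi60 : i ≤ 60 := by omega
  subst hi
  unfold tab ltab
  rw [show ((i : ℤ) - 20 + 20).toNat = i by omega, nth_tl _ _ _ _ (by omega), sc_eq _ hi60,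
    sc_eq _ hi60]
  have := ev_ge (sa s ll) (sb s ll) (cpos s μ fl) (cneg s fl) i
  push_cast
  linarith

theorem interp_le {φ ψ : ℤ → ℝ} {x : ℝ} {a b : ℤ} (h : ∀ n, a ≤ n → n ≤ b → φ n ≤ ψ n)
    (h1 : (a : ℝ) ≤ x) (h2 : x ≤ b) : interp φ x ≤ interp ψ x := by
  have f0 := Int.floor_le x
  have f1 := Int.lt_floor_add_one x
  have a0 : a ≤ ⌊x⌋ := Int.le_floor.2 h1
  have b0 : ⌊x⌋ ≤ b := by
    have : ((⌊x⌋ : ℤ) : ℝ) ≤ b := by linarith
    exact_mod_cast this
  have k0 := h ⌊x⌋ a0 b0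
  unfold interp
  rcases eq_or_lt_of_le b0 with hb | hb
  · have e : x - ⌊x⌋ = 0 := by
      rw [hb]
      rw [hb] at f0
      linarith
    rw [e]
    linarith
  · have k1 := h (⌊x⌋ + 1) (by omega) (by omega)
    have m0 := mul_nonneg (show (0 : ℝ) ≤ x - ⌊x⌋ by linarith)
      (show (0 : ℝ) ≤ ψ (⌊x⌋ + 1) - φ (⌊x⌋ + 1) by linarith)
    have m1 := mul_nonneg (show (0 : ℝ) ≤ 1 - (x - ⌊x⌋) by linarith)
      (show (0 : ℝ) ≤ ψ ⌊x⌋ - φ ⌊x⌋ by linarith)
    nlinarith

/-- **(EVAL) for the interpolated prices** -/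
theorem interp_tab_le (fl ll : List (ℕ × ℕ)) (s : ℕ) (μ : Bool) {x : ℝ} (h1 : -20 ≤ x)
    (h2 : x ≤ 40) : interp (tab fl ll s μ) x ≤ interp (ltab (tl fl ll s μ)) x :=
  interp_le (a := -20) (b := 40) (fun _ a b => tab_le fl ll s μ a b) (by push_cast; exact h1)
    (by push_cast; exact h2)

end Pool.Agent.Helper56.NE
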