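import Pool.Agent.Helper95.TS.MainLow

/-!
# Admissible pairs on the grid: `(al / 96000, bw / 4800)`
-/

set_option autoImplicit false

namespace Pool.Agent.Helper56.NE

open Pool.Agent.Helper95.TS

/-- The five conditions of an admissible pair, in natural numbers. -/
structure DMajPair (al bw : ℕ) : Prop where
  c1 : 23040 + 4 * bw ≤ al
  c2 : bw ≤ 1344 → 6488064 + (384 + bw) * (384 + bw) ≤ 288 * al
  c3 : 16768 + 12 * bw ≤ al
  c4 : 20 * bw ≤ al

/-- the check -/
def majOK (al bw : ℕ) : Bool :=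
  Bool.and
    (Bool.and (Nat.ble (Nat.add 23040 (Nat.mul 4 bw)) al) (Nat.ble (Nat.add 16768 (Nat.mul 12 bw)) al))
    (Bool.and (Nat.ble (Nat.mul 20 bw) al)
      (Bool.or (Nat.ble 1345 bw)
        (Nat.ble (Nat.add 6488064 (Nat.mul (Nat.add 384 bw) (Nat.add 384 bw))) (Nat.mul 288 al))))

theorem majOK_sound {al bw : ℕ} (h : majOK al bw = true) : DMajPair al bw := by
  unfold majOK at h
  rw [Bool.and_eq_true, Bool.and_eq_true, Bool.and_eq_true, Bool.or_eq_true, Nat.ble_eq, Nat.ble_eq,
    Nat.ble_eq, Nat.ble_eq, Nat.ble_eq] at h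
  obtain ⟨⟨h1, h3⟩, h4, h2⟩ := h
  refine ⟨h1, fun hb => ?_, h3, h4⟩
  rcases h2 with h2 | h2
  · omega
  · exact h2

theorem DMajPair.real {al bw : ℕ} (h : DMajPair al bw) :
    MajPair ((al : ℝ) / 96000) ((bw : ℝ) / 4800) := by
  have h1 : (23040 + 4 * bw : ℝ) ≤ al := by exact_mod_cast h.c1
  have h3 : (16768 + 12 * bw : ℝ) ≤ al := by exact_mod_cast h.c3
  have h4 : (20 * bw : ℝ) ≤ al := by exact_mod_cast h.c4
  have h0 : (0 : ℝ) ≤ bw := Nat.cast_nonneg _
  refine ⟨by positivity, by linarith, fun hb => ?_, by linarith, by linarith⟩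
  have hb' : bw ≤ 1344 := by
    have : (bw : ℝ) ≤ 1344 := by linarith
    exact_mod_cast this
  have h2 : (6488064 + (384 + bw) * (384 + bw) : ℝ) ≤ 288 * al := by exact_mod_cast h.c2 hb'
  nlinarith [h2]

/-- **The pair of the check is admissible.** -/
theorem majpair_of {al bw : ℕ} (h : majOK al bw = true) :
    MajPair ((al : ℝ) / 96000) ((bw : ℝ) / 4800) := (majOK_sound h).real

example : majOK 23040 0 = true := by decide
example : majOK 24576 384 = true := by decide
example : majOK 32896 1344 = true := by decide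
example : majOK 41920 2096 = true := by decide

end Pool.Agent.Helper56.NE
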